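import Pool.Graph.R_seed8.Results.MP_742028_co.Robustness

set_option autoImplicit false

/-!
Asymmetric Ramsey robustness for families of graphs.
-/

namespace Pool.Agent.H1.RB

open SimpleGraph

/-- A family of finite graphs. -/
abbrev Fam : Type := Set (Σ n : ℕ, SimpleGraph (Fin n))

/-- `S` is a copy of a member of the family `F`. -/
def IsCopyOf (F : Fam) {V : Type} {G : SimpleGraph V} (S : G.Subgraph) : Prop :=
  ∃ P ∈ F, Nonempty (P.2 ≃g S.coe)

/-- All the edges of `S` have the colour `i`. -/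
def HasColour {V : Type} {G : SimpleGraph V} {r : ℕ} (c : G.edgeSet → Fin r) (i : Fin r)
    (S : G.Subgraph) : Prop :=
  ∀ (e : Sym2 V) (he : e ∈ S.edgeSet), c ⟨e, S.edgeSet_subset he⟩ = i

/-- `G → (F_1, ..., F_r)`. -/
def Arrows {V : Type} {r : ℕ} (G : SimpleGraph V) (F : Fin r → Fam) : Prop :=
  ∀ c : G.edgeSet → Fin r, ∃ (i : Fin r) (S : G.Subgraph), IsCopyOf (F i) S ∧ HasColour c i S

/-- The least number of pairs `(i, S)`, where `S` is a copy in colour `i` of a member of `F_i`. -/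
noncomputable def mult {V : Type} {r : ℕ} (F : Fin r → Fam) (G : SimpleGraph V) : ℕ :=
  ⨅ c : G.edgeSet → Fin r,
    {x : Fin r × G.Subgraph | IsCopyOf (F x.1) x.2 ∧ HasColour c x.1 x.2}.ncard

/-- The number of copies of members of `F` in `G`. -/
noncomputable def copies {V : Type} (F : Fam) (G : SimpleGraph V) : ℕ :=
  {S : G.Subgraph | IsCopyOf F S}.ncard

/-- `G` is Ramsey-minimal for `(F_1, ..., F_r)`. -/
def RMinimal {V : Type} {r : ℕ} (F : Fin r → Fam) (G : SimpleGraph V) : Prop :=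
  Arrows G F ∧ ∀ S : G.Subgraph, S ≠ ⊤ → ¬ Arrows S.coe F

/-- Up to isomorphism there are only finitely many Ramsey-minimal graphs. -/
def RFinite {r : ℕ} (F : Fin r → Fam) : Prop :=
  ∃ T : Finset (Σ n : ℕ, SimpleGraph (Fin n)), ∀ (n : ℕ) (G : SimpleGraph (Fin n)),
    RMinimal F G → ∃ P ∈ T, Nonempty (G ≃g P.2)

section

variable {V V' : Type} {r : ℕ} {F : Fin r → Fam} {G : SimpleGraph V} {G' : SimpleGraph V'}

lemma arrows_iff : Arrows G F ↔ ∀ c : G.edgeSet → Fin r, ∃ i : Fin r, ∃ P ∈ F i,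
    ∃ f : P.2.Copy G, ∀ a b (h : P.2.Adj a b), c ⟨s(f a, f b), f.toHom.map_adj h⟩ = i := by
  constructor
  · intro h c
    obtain ⟨i, S, ⟨P, hP, ⟨φ⟩⟩, hi⟩ := h c
    refine ⟨i, P, hP, S.coeCopy.comp φ.toCopy, fun a b hab => ?_⟩
    have h1 : S.Adj (φ a).1 (φ b).1 := φ.map_adj_iff.2 hab
    exact hi s((φ a).1, (φ b).1) h1
  · intro h c
    obtain ⟨i, P, hP, f, hi⟩ := h c
    refine ⟨i, f.toSubgraph, ⟨P, hP, ⟨f.isoToSubgraph⟩⟩, fun e he => ?_⟩
    induction e using Sym2.ind with
    | _ x y =>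
      have h1 : (Subgraph.map f.toHom ⊤).Adj x y := he
      rw [Subgraph.map_adj] at h1
      obtain ⟨a, b, hab, rfl, rfl⟩ := h1
      exact hi a b hab

lemma Arrows.mono (h : Arrows G F) (f : G.Copy G') : Arrows G' F := by
  rw [arrows_iff] at h ⊢
  intro c
  obtain ⟨i, P, hP, g, hi⟩ := h (fun e => c ⟨Sym2.map f e.1, by
    obtain ⟨e, he⟩ := e
    induction e using Sym2.ind with
    | _ x y => exact f.toHom.map_adj he⟩)
  exact ⟨i, P, hP, f.comp g, fun a b hab => hi a b hab⟩

/-- Deleting an edge from a Ramsey-minimal graph destroys the arrow property. -/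
lemma RMinimal.deleteEdge (h : RMinimal F G) (e : Sym2 V) (he : e ∈ G.edgeSet) :
    ¬ Arrows (G.deleteEdges {e}) F := by
  intro hA
  set D : G.Subgraph := (⊤ : G.Subgraph).deleteEdges {e} with hD
  have hne : D ≠ ⊤ := by
    intro hEq
    induction e using Sym2.ind with
    | _ x y =>
      have h1 : D.Adj x y := by rw [hEq]; exact he
      rw [hD, Subgraph.deleteEdges_adj] at h1
      exact h1.2 rfl
  refine h.2 D hne (hA.mono ⟨⟨fun x => ⟨x, trivial⟩, ?_⟩, ?_⟩)
  · intro a b hab
    rw [SimpleGraph.deleteEdges_adj] at hab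
    exact (Subgraph.deleteEdges_adj ..).2 ⟨hab.1, hab.2⟩
  · intro a b hab
    exact congrArg Subtype.val hab

/-- For each edge `e` of a Ramsey-minimal graph some colouring has all its good pairs
through `e`. -/
lemma RMinimal.exists_colouring (hr : 0 < r) (h : RMinimal F G) (e : Sym2 V)
    (he : e ∈ G.edgeSet) : ∃ c : G.edgeSet → Fin r, ∀ (i : Fin r) (S : G.Subgraph),
      IsCopyOf (F i) S → HasColour c i S → e ∈ S.edgeSet := by
  classical
  have h1 := h.deleteEdge e he
  rw [arrows_iff] at h1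
  push Not at h1
  obtain ⟨c, hc⟩ := h1
  refine ⟨fun e' => if h : e'.1 ∈ (G.deleteEdges {e}).edgeSet then c ⟨e'.1, h⟩ else ⟨0, hr⟩, ?_⟩
  rintro i S ⟨P, hP, ⟨φ⟩⟩ hi
  by_contra heS
  have hadj : ∀ a b, P.2.Adj a b → (G.deleteEdges {e}).Adj (φ a).1 (φ b).1 := by
    intro a b hab
    have h2 : S.Adj (φ a).1 (φ b).1 := φ.map_adj_iff.2 hab
    rw [SimpleGraph.deleteEdges_adj]
    refine ⟨S.adj_sub h2, fun h3 => heS ?_⟩
    rw [Set.mem_singleton_iff] at h3
    rw [← h3]
    exact h2
  obtain ⟨a, b, hab, h4⟩ := hc i P hP ⟨⟨fun a => (φ a).1, fun {a b} hab => hadj a b hab⟩,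
    Subtype.val_injective.comp φ.injective⟩
  apply h4
  have h2 : S.Adj (φ a).1 (φ b).1 := φ.map_adj_iff.2 hab
  have h5 := hi s((φ a).1, (φ b).1) h2
  have h6 : s((φ a).1, (φ b).1) ∈ (G.deleteEdges {e}).edgeSet := hadj a b hab
  simp only [h6, dite_true] at h5
  exact h5

end

section Finite

variable {V : Type} {r : ℕ} {F : Fin r → Fam} {G : SimpleGraph V}

lemma card_edges [Finite V] {n : ℕ} {H : SimpleGraph (Fin n)} {S : G.Subgraph}
    (h : Nonempty (H ≃g S.coe)) : S.edgeSet.ncard = H.edgeSet.ncard :=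
  Pool.Agent.Results.MP_742028_co.Robustness.card_edges_of_copy h

lemma mult_pos [Finite V] (hr : 0 < r) (h : Arrows G F) : 0 < mult F G := by
  classical
  have hSf := Pool.Agent.Results.MP_742028_co.Robustness.finite_subgraph G
  unfold mult
  have hne : Nonempty (G.edgeSet → Fin r) := ⟨fun _ => ⟨0, hr⟩⟩
  obtain ⟨c, hc⟩ := Nat.sInf_mem (Set.range_nonempty (fun c : G.edgeSet → Fin r =>
    {x : Fin r × G.Subgraph | IsCopyOf (F x.1) x.2 ∧ HasColour c x.1 x.2}.ncard))
  have h1 : 0 < {x : Fin r × G.Subgraph | IsCopyOf (F x.1) x.2 ∧ HasColour c x.1 x.2}.ncard := by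
    rw [Set.ncard_pos (Set.toFinite _)]
    obtain ⟨i, S, h2⟩ := h c
    exact ⟨(i, S), h2⟩
  change 0 < sInf _
  rw [← hc]
  exact h1

/-- The averaging inequality. -/
lemma RMinimal.key [Finite V] (hr : 0 < r) (h : RMinimal F G) (T : Finset (Fin r)) (K : Fam)
    (hT : ∀ i ∈ T, F i = K) (m : ℕ) (hm : ∀ P ∈ K, P.2.edgeSet.ncard ≤ m)
    (h2 : T.card ≤ 1 ∨ ∀ P ∈ K, 2 ≤ P.2.edgeSet.ncard) :
    T.card * mult F G * G.edgeSet.ncard ≤ m * copies K G := by
  classical
  have hV : Fintype V := Fintype.ofFinite V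
  have hSf := Pool.Agent.Results.MP_742028_co.Robustness.finite_subgraph G
  have hS : Fintype G.Subgraph := Fintype.ofFinite _
  -- one edge
  have h1 : ∀ e ∈ G.edgeSet, T.card * mult F G ≤
      ((Finset.univ : Finset G.Subgraph).filter (fun S => IsCopyOf K S ∧ e ∈ S.edgeSet)).card := by
    intro e he
    obtain ⟨c, hc⟩ := h.exists_colouring hr e he
    let c' : Fin r → G.edgeSet → Fin r := fun i => Function.update c ⟨e, he⟩ i
    have hcol : ∀ i j : Fin r, ∀ S : G.Subgraph, IsCopyOf (F j) S → HasColour (c' i) j S →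
        e ∈ S.edgeSet ∧ j = i := by
      intro i j S hS1 hS2
      have heS : e ∈ S.edgeSet := by
        by_contra heS
        apply heS
        apply hc j S hS1
        intro e' he'
        have h3 := hS2 e' he'
        have h4 : (⟨e', S.edgeSet_subset he'⟩ : G.edgeSet) ≠ ⟨e, he⟩ := by
          intro h5
          apply heS
          have h6 : e' = e := congrArg Subtype.val h5
          rw [← h6]; exact he'
        simp only [c', Function.update_of_ne h4] at h3
        exact h3
      refine ⟨heS, ?_⟩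
      have h3 := hS2 e heS
      simp only [c', Function.update_self] at h3
      exact h3.symm
    let B : Fin r → Finset G.Subgraph := fun i =>
      (Finset.univ : Finset G.Subgraph).filter (fun S => IsCopyOf K S ∧ HasColour (c' i) i S)
    have hB : ∀ i ∈ T, mult F G ≤ (B i).card := by
      intro i hi
      refine le_trans (Nat.sInf_le ⟨c' i, rfl⟩) ?_
      have h3 : {x : Fin r × G.Subgraph | IsCopyOf (F x.1) x.2 ∧ HasColour (c' i) x.1 x.2} ⊆
          (fun S : G.Subgraph => (i, S)) '' (B i : Set G.Subgraph) := by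
        rintro ⟨j, S⟩ ⟨h4, h5⟩
        obtain ⟨h6, rfl⟩ := hcol i j S h4 h5
        refine ⟨S, ?_, rfl⟩
        simp only [B, Finset.coe_filter, Finset.mem_univ, true_and, Set.mem_ofPred_eq]
        rw [← hT j hi]
        exact ⟨h4, h5⟩
      refine (Set.ncard_le_ncard h3 (Set.toFinite _)).trans ?_
      refine (Set.ncard_image_le (Set.toFinite _)).trans ?_
      rw [Set.ncard_coe_finset]
    have hsub : T.biUnion B ⊆
        (Finset.univ : Finset G.Subgraph).filter (fun S => IsCopyOf K S ∧ e ∈ S.edgeSet) := by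
      intro S hS1
      rw [Finset.mem_biUnion] at hS1
      obtain ⟨i, hi, hS1⟩ := hS1
      simp only [B, Finset.mem_filter, Finset.mem_univ, true_and] at hS1 ⊢
      refine ⟨hS1.1, (hcol i i S ?_ hS1.2).1⟩
      rw [hT i hi]; exact hS1.1
    have hdisj : ∀ i ∈ T, ∀ j ∈ T, i ≠ j → Disjoint (B i) (B j) := by
      intro i hi j hj hij
      rcases h2 with h2 | h2
      · exact absurd (Finset.card_le_one.1 h2 i hi j hj) hij
      rw [Finset.disjoint_left]
      intro S h3 h4
      simp only [B, Finset.mem_filter, Finset.mem_univ, true_and] at h3 h4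
      obtain ⟨P, hP, hφ⟩ := h3.1
      have h5 := card_edges hφ
      have h6 := h2 P hP
      rw [← h5] at h6
      -- a second edge
      obtain ⟨e', he', hne⟩ : ∃ e' ∈ S.edgeSet, e' ≠ e := by
        by_contra hcon
        push Not at hcon
        have h7 : S.edgeSet ⊆ {e} := fun x hx => hcon x hx
        have h8 := Set.ncard_le_ncard h7 (Set.toFinite _)
        rw [Set.ncard_singleton] at h8
        omega
      have h7 := h3.2 e' he'
      have h8 := h4.2 e' he'
      have h9 : (⟨e', S.edgeSet_subset he'⟩ : G.edgeSet) ≠ ⟨e, he⟩ := fun h5 =>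
        hne (congrArg Subtype.val h5)
      simp only [c', Function.update_of_ne h9] at h7 h8
      exact hij (h7.symm.trans h8)
    calc T.card * mult F G = ∑ i ∈ T, mult F G := by rw [Finset.sum_const, smul_eq_mul]
      _ ≤ ∑ i ∈ T, (B i).card := Finset.sum_le_sum hB
      _ = (T.biUnion B).card := (Finset.card_biUnion hdisj).symm
      _ ≤ _ := Finset.card_le_card hsub
  have hGe : G.edgeSet.ncard = G.edgeFinset.card := by
    rw [← SimpleGraph.coe_edgeFinset, Set.ncard_coe_finset]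
  have h3 : ∀ S : G.Subgraph, IsCopyOf K S →
      (∑ e ∈ G.edgeFinset, if IsCopyOf K S ∧ e ∈ S.edgeSet then 1 else 0) ≤ m := by
    rintro S hS
    obtain ⟨P, hP, hφ⟩ := hS
    rw [← Finset.card_filter]
    refine le_trans (le_of_eq ?_) (hm P hP)
    rw [← card_edges hφ, ← Set.ncard_coe_finset]
    congr 1
    ext e
    simp only [Finset.coe_filter, SimpleGraph.mem_edgeFinset, Set.mem_ofPred_eq]
    exact ⟨fun h => h.2.2, fun h => ⟨S.edgeSet_subset h, ⟨P, hP, hφ⟩, h⟩⟩
  calc T.card * mult F G * G.edgeSet.ncard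
      = ∑ e ∈ G.edgeFinset, T.card * mult F G := by
        rw [Finset.sum_const, smul_eq_mul, hGe, mul_comm]
    _ ≤ ∑ e ∈ G.edgeFinset, ∑ S : G.Subgraph, (if IsCopyOf K S ∧ e ∈ S.edgeSet then 1 else 0) := by
        apply Finset.sum_le_sum
        intro e he
        rw [← Finset.card_filter]
        exact h1 e (by simpa using he)
    _ = ∑ S : G.Subgraph, ∑ e ∈ G.edgeFinset, (if IsCopyOf K S ∧ e ∈ S.edgeSet then 1 else 0) :=
        Finset.sum_comm
    _ ≤ ∑ S : G.Subgraph, (if IsCopyOf K S then m else 0) := by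
        apply Finset.sum_le_sum
        intro S _
        by_cases hS : IsCopyOf K S
        · rw [if_pos hS]; exact h3 S hS
        · rw [if_neg hS]
          apply le_of_eq
          apply Finset.sum_eq_zero
          intro e _
          rw [if_neg (fun h => hS h.1)]
    _ = m * copies K G := by
        rw [← Finset.sum_filter, Finset.sum_const, smul_eq_mul, mul_comm]
        unfold copies
        congr 1
        rw [← Set.ncard_coe_finset]
        congr 1
        ext S
        simp

/-- A Ramsey-minimal graph with more vertices than the members of the families has no isolated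
vertex. -/
lemma RMinimal.no_isolated [Fintype V] (h : RMinimal F G) (N : ℕ)
    (hN : ∀ i, ∀ P ∈ F i, P.1 ≤ N) (hc : N < Fintype.card V) (v : V) : ∃ w, G.Adj v w := by
  classical
  by_contra hv
  push Not at hv
  have key : Arrows (G.induce {x | x ≠ v}) F := by
    rw [arrows_iff]
    intro c
    -- colour of the edge in `G`
    have hedge : ∀ e ∈ G.edgeSet, ∃ e' : (G.induce {x | x ≠ v}).edgeSet,
        Sym2.map Subtype.val e'.1 = e := by
      intro e he
      induction e using Sym2.ind with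
      | _ x y =>
        have hxy : G.Adj x y := he
        have hx : x ≠ v := by rintro rfl; exact hv y hxy
        have hy : y ≠ v := by rintro rfl; exact hv x hxy.symm
        exact ⟨⟨s(⟨x, hx⟩, ⟨y, hy⟩), hxy⟩, rfl⟩
    choose g hg using hedge
    have h0 := h.1
    rw [arrows_iff] at h0
    obtain ⟨i, P, hP, f, hi⟩ := h0 (fun e => c (g e.1 e.2))
    obtain ⟨u, hu⟩ : ∃ u, u ∉ Set.range f := by
      by_contra hcon
      push Not at hcon
      have h1 : Fintype.card V ≤ Fintype.card (Fin P.1) := Fintype.card_le_of_surjective f hcon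
      rw [Fintype.card_fin] at h1
      have := hN i P hP
      omega
    have hne : ∀ a, Equiv.swap v u (f a) ≠ v := by
      intro a ha
      rw [Equiv.swap_apply_eq_iff, Equiv.swap_apply_left] at ha
      exact hu ⟨a, ha⟩
    have hfix : ∀ a b, P.2.Adj a b → Equiv.swap v u (f a) = f a := by
      intro a b hab
      apply Equiv.swap_apply_of_ne_of_ne
      · intro h1
        have h2 := f.toHom.map_adj hab
        have h3 : G.Adj (f a) (f b) := h2
        rw [h1] at h3
        exact hv _ h3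
      · intro h1
        exact hu ⟨a, h1⟩
    refine ⟨i, P, hP, ⟨⟨fun a => ⟨Equiv.swap v u (f a), hne a⟩, ?_⟩, ?_⟩, ?_⟩
    · intro a b hab
      change G.Adj (Equiv.swap v u (f a)) (Equiv.swap v u (f b))
      rw [hfix a b hab, hfix b a hab.symm]
      exact f.toHom.map_adj hab
    · intro a b hab
      have h1 := congrArg Subtype.val hab
      exact f.injective ((Equiv.swap v u).injective h1)
    · intro a b hab
      have h1 := hi a b hab
      rw [← h1]
      congr 1
      apply Subtype.ext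
      apply Sym2.map.injective Subtype.val_injective
      rw [hg]
      change s(Equiv.swap v u (f a), Equiv.swap v u (f b)) = s(f a, f b)
      rw [hfix a b hab, hfix b a hab.symm]
  set D : G.Subgraph := (⊤ : G.Subgraph).deleteVerts {v} with hD
  have hne : D ≠ ⊤ := by
    intro hEq
    have h1 : v ∈ D.verts := by rw [hEq]; trivial
    rw [hD, Subgraph.deleteVerts_verts] at h1
    exact h1.2 rfl
  refine h.2 D hne (key.mono ⟨⟨fun x => ⟨x.1, ?_⟩, ?_⟩, ?_⟩)
  · rw [hD, Subgraph.deleteVerts_verts]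
    exact ⟨trivial, x.2⟩
  · intro a b hab
    exact Subgraph.deleteVerts_adj.2 ⟨trivial, a.2, trivial, b.2, hab⟩
  · intro a b hab
    have h1 := congrArg Subtype.val hab
    exact Subtype.ext h1

lemma RMinimal.card_le [Fintype V] (h : RMinimal F G) (N : ℕ)
    (hN : ∀ i, ∀ P ∈ F i, P.1 ≤ N) :
    Fintype.card V ≤ max N (2 * G.edgeSet.ncard) := by
  classical
  by_contra hcon
  rw [not_le, max_lt_iff] at hcon
  obtain ⟨h1, h2⟩ := hcon
  have h3 := h.no_isolated N hN h1
  have h4 : ∑ v : V, G.degree v = 2 * G.edgeFinset.card := G.sum_degrees_eq_twice_card_edges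
  have h5 : Fintype.card V ≤ ∑ v : V, G.degree v := by
    calc Fintype.card V = ∑ v : V, 1 := by simp
      _ ≤ ∑ v : V, G.degree v := by
        apply Finset.sum_le_sum
        intro v _
        obtain ⟨w, hw⟩ := h3 v
        exact (G.degree_pos_iff_exists_adj v).2 ⟨w, hw⟩
  have hGe : G.edgeSet.ncard = G.edgeFinset.card := by
    rw [← SimpleGraph.coe_edgeFinset, Set.ncard_coe_finset]
  omega

end Finite

lemma bounds {r : ℕ} {F : Fin r → Fam} (hF : ∀ i, (F i).Finite) :
    ∃ N m : ℕ, (∀ i, ∀ P ∈ F i, P.1 ≤ N) ∧ ∀ i, ∀ P ∈ F i, P.2.edgeSet.ncard ≤ m := by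
  classical
  have hU : (⋃ i, F i).Finite := Set.finite_iUnion hF
  obtain ⟨N, hN⟩ := (hU.image (fun P => P.1)).bddAbove
  obtain ⟨m, hm⟩ := (hU.image (fun P : Σ n : ℕ, SimpleGraph (Fin n) =>
    P.2.edgeSet.ncard)).bddAbove
  exact ⟨N, m, fun i P hP => hN ⟨P, Set.mem_iUnion.2 ⟨i, hP⟩, rfl⟩,
    fun i P hP => hm ⟨P, Set.mem_iUnion.2 ⟨i, hP⟩, rfl⟩⟩

/-- Only finitely many minimal graphs have many monochromatic copies. -/
lemma finitely_many {r : ℕ} (hr : 0 < r) {F : Fin r → Fam} (hF : ∀ i, (F i).Finite) {ε : ℝ}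
    (hε : 0 < ε) : ∃ T : Finset (Σ n : ℕ, SimpleGraph (Fin n)), ∀ (n : ℕ) (G : SimpleGraph (Fin n)),
      RMinimal F G → (∃ i, ε * copies (F i) G ≤ mult F G) → ∃ P ∈ T, Nonempty (G ≃g P.2) := by
  classical
  obtain ⟨N, m, hN, hm⟩ := bounds hF
  obtain ⟨K, hK⟩ : ∃ K : ℕ, (m : ℝ) / ε ≤ K := exists_nat_ge _
  refine ⟨(Finset.range (max N (2 * K) + 1)).sigma
    (fun n => (Finset.univ : Finset (SimpleGraph (Fin n)))), fun n G hG h3 => ?_⟩
  refine ⟨⟨n, G⟩, ?_, ⟨SimpleGraph.Iso.refl⟩⟩
  rw [Finset.mem_sigma]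
  refine ⟨?_, Finset.mem_univ _⟩
  rw [Finset.mem_range, Nat.lt_succ_iff]
  have h1 := hG.card_le N hN
  rw [Fintype.card_fin] at h1
  refine le_trans h1 (max_le_max le_rfl (Nat.mul_le_mul_left 2 ?_))
  obtain ⟨i, h3⟩ := h3
  have h2 := hG.key hr {i} (F i) (by simp) m (hm i) (Or.inl (by simp))
  rw [Finset.card_singleton, one_mul] at h2
  have h4 := mult_pos hr hG.1
  by_cases hC : copies (F i) G = 0
  · rw [hC, mul_zero, Nat.le_zero, Nat.mul_eq_zero] at h2
    rcases h2 with h2 | h2
    · omega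
    · omega
  have hC' : (0 : ℝ) < copies (F i) G := by exact_mod_cast Nat.pos_of_ne_zero hC
  have h5 : (mult F G : ℝ) * G.edgeSet.ncard ≤ m * copies (F i) G := by exact_mod_cast h2
  have h6 : ε * G.edgeSet.ncard ≤ m := by
    have h7 : ε * copies (F i) G * G.edgeSet.ncard ≤ m * copies (F i) G := by
      refine le_trans ?_ h5
      gcongr
    nlinarith
  have h8 : (G.edgeSet.ncard : ℝ) ≤ K := by
    refine le_trans ?_ hK
    rw [le_div_iff₀ hε]
    linarith
  exact_mod_cast h8

lemma exists_lower {α : Type} (f : α → ℝ) (T : Finset α) (h : ∀ P ∈ T, 0 < f P) :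
    ∃ ε : ℝ, 0 < ε ∧ ∀ P ∈ T, ε ≤ f P := by
  classical
  induction T using Finset.induction_on with
  | empty => exact ⟨1, one_pos, by simp⟩
  | insert a s ha ih =>
    obtain ⟨ε, hε, h1⟩ := ih (fun P hP => h P (Finset.mem_insert_of_mem hP))
    refine ⟨min ε (f a), lt_min hε (h a (Finset.mem_insert_self _ _)), fun P hP => ?_⟩
    rcases Finset.mem_insert.1 hP with rfl | hP
    · exact min_le_right _ _
    · exact (min_le_left _ _).trans (h1 P hP)

lemma finite_iff {r : ℕ} (hr : 0 < r) {F : Fin r → Fam} (hF : ∀ i, (F i).Finite) :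
    RFinite F ↔ ∃ ε : ℝ, 0 < ε ∧ ∀ (n : ℕ) (G : SimpleGraph (Fin n)),
      RMinimal F G → ∀ i, ε * copies (F i) G ≤ mult F G := by
  classical
  constructor
  · rintro ⟨T, hT⟩
    let N : ℕ := T.sup (fun P => P.1)
    let f : (Σ n : ℕ, SimpleGraph (Fin n)) → ℝ := fun P =>
      (mult F P.2 : ℝ) / (∑ i, copies (F i) P.2 + 1 : ℕ)
    let T' : Finset (Σ n : ℕ, SimpleGraph (Fin n)) := ((Finset.range (N + 1)).sigma
      (fun n => (Finset.univ : Finset (SimpleGraph (Fin n))))).filter (fun P => 0 < f P)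
    obtain ⟨ε, hε, h1⟩ := exists_lower f T' (fun P hP => (Finset.mem_filter.1 hP).2)
    refine ⟨ε, hε, fun n G hG i => ?_⟩
    have hpos : (0 : ℝ) < mult F G := by exact_mod_cast mult_pos hr hG.1
    have hden : (0 : ℝ) < (∑ i, copies (F i) G + 1 : ℕ) := by positivity
    have h2 : ε ≤ f ⟨n, G⟩ := by
      apply h1
      rw [Finset.mem_filter]
      refine ⟨?_, div_pos hpos hden⟩
      rw [Finset.mem_sigma]
      refine ⟨?_, Finset.mem_univ _⟩
      rw [Finset.mem_range, Nat.lt_succ_iff]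
      obtain ⟨P, hP, ⟨φ⟩⟩ := hT n G hG
      have h2 : n = P.1 := by
        have := Fintype.card_congr φ.toEquiv
        simpa using this
      have h3 : P.1 ≤ N := Finset.le_sup (f := fun P : Σ n : ℕ, SimpleGraph (Fin n) => P.1) hP
      exact h2.trans_le h3
    have h3 : ε * (∑ i, copies (F i) G + 1 : ℕ) ≤ mult F G := by
      rwa [le_div_iff₀ hden] at h2
    refine le_trans ?_ h3
    have h4 : copies (F i) G ≤ ∑ i, copies (F i) G + 1 :=
      (Finset.single_le_sum (f := fun i => copies (F i) G) (fun _ _ => Nat.zero_le _)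
        (Finset.mem_univ i)).trans (Nat.le_succ _)
    gcongr
  · rintro ⟨ε, hε, h⟩
    obtain ⟨T, hT⟩ := finitely_many hr hF hε
    exact ⟨T, fun n G hG => hT n G hG ⟨⟨0, hr⟩, h n G hG _⟩⟩

end Pool.Agent.H1.RB
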