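import Pool.Agent.H1.RB.Fam

set_option autoImplicit false

/-!
The symmetric case: one graph in all colours.
-/

namespace Pool.Agent.H1.RB

open SimpleGraph
open Pool.Agent.Results.MP_742028_co.Robustness (IsCopy IsMono RamseyMinimal
  RamseyFinite robustness)

/-- The family with the only member `H`. -/
def single {n : ℕ} (H : SimpleGraph (Fin n)) : Fam := {⟨n, H⟩}

variable {n r : ℕ} {H : SimpleGraph (Fin n)} {V : Type} {G : SimpleGraph V}

lemma isCopyOf_single {S : G.Subgraph} : IsCopyOf (single H) S ↔ IsCopy H S := by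
  unfold IsCopyOf single IsCopy
  constructor
  · rintro ⟨P, hP, h⟩
    rw [Set.mem_singleton_iff] at hP
    subst hP
    exact h
  · intro h
    exact ⟨⟨n, H⟩, rfl, h⟩

lemma arrows_single : Arrows G (fun _ : Fin r => single H) ↔
    Pool.Agent.Results.MP_742028_co.Robustness.Arrows r G H := by
  unfold Arrows Pool.Agent.Results.MP_742028_co.Robustness.Arrows
  refine forall_congr' fun c => ?_
  constructor
  · rintro ⟨i, S, h1, h2⟩
    exact ⟨S, isCopyOf_single.1 h1, i, h2⟩
  · rintro ⟨S, h1, i, h2⟩
    exact ⟨i, S, isCopyOf_single.2 h1, h2⟩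

lemma minimal_single : RMinimal (fun _ : Fin r => single H) G ↔ RamseyMinimal r H G := by
  unfold RMinimal RamseyMinimal
  rw [arrows_single]
  refine and_congr_right fun _ => forall_congr' fun S => forall_congr' fun _ => ?_
  rw [arrows_single]

lemma finite_single : RFinite (fun _ : Fin r => single H) ↔ RamseyFinite r H := by
  unfold RFinite RamseyFinite
  refine exists_congr fun T => forall_congr' fun n => forall_congr' fun G => ?_
  rw [minimal_single]

lemma copies_single : copies (single H) G =
    Pool.Agent.Results.MP_742028_co.Robustness.multiplicity 1 H G := by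
  rw [Pool.Agent.Results.MP_742028_co.Robustness.multiplicity_one]
  unfold copies
  congr 1
  ext S
  exact isCopyOf_single

lemma mult_single [Finite V] (he : 1 ≤ H.edgeSet.ncard) :
    mult (fun _ : Fin r => single H) G =
      Pool.Agent.Results.MP_742028_co.Robustness.multiplicity r H G := by
  classical
  have hSf := Pool.Agent.Results.MP_742028_co.Robustness.finite_subgraph G
  unfold mult Pool.Agent.Results.MP_742028_co.Robustness.multiplicity
  refine iInf_congr fun c => ?_
  have hinj : Set.InjOn (fun x : Fin r × G.Subgraph => x.2)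
      {x : Fin r × G.Subgraph | IsCopyOf (single H) x.2 ∧ HasColour c x.1 x.2} := by
    rintro ⟨i, S⟩ ⟨h1, h2⟩ ⟨j, S'⟩ ⟨h3, h4⟩ hSS
    simp only at h1 h2 h3 h4 hSS
    subst hSS
    have h5 := card_edges (isCopyOf_single.1 h1)
    obtain ⟨e, he'⟩ : S.edgeSet.Nonempty := by
      rw [← Set.ncard_pos (Set.toFinite _), h5]
      omega
    have h6 := h2 e he'
    have h7 := h4 e he'
    rw [← h6, ← h7]
  rw [← Set.ncard_image_of_injOn hinj]
  congr 1
  ext S
  simp only [Set.mem_image, Set.mem_ofPred_eq, Prod.exists, exists_eq_right]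
  constructor
  · rintro ⟨i, h1, h2⟩
    exact ⟨isCopyOf_single.1 h1, i, h2⟩
  · rintro ⟨h1, i, h2⟩
    exact ⟨i, isCopyOf_single.2 h1, h2⟩

end Pool.Agent.H1.RB
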