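import Mathlib

set_option autoImplicit false

/-!
The averaging inequality for critical systems of sets with several colours.
-/

namespace Pool.Agent.H1.RB

theorem system {E ι : Type} [Fintype E] [Finite ι] {r : ℕ} (ed : ι → Finset E)
    (A : Fin r → Set ι)
    (hc : ∀ e : E, ∃ c : E → Fin r, ∀ (i : Fin r), ∀ s ∈ A i, (∀ x ∈ ed s, c x = i) → e ∈ ed s)
    (T : Finset (Fin r)) (B : Finset ι) (hT : ∀ i ∈ T, A i = B)
    (h2 : T.card ≤ 1 ∨ ∀ s ∈ B, 2 ≤ (ed s).card) :
    T.card * (⨅ c : E → Fin r,
      {x : Fin r × ι | x.2 ∈ A x.1 ∧ ∀ e ∈ ed x.2, c e = x.1}.ncard) * Fintype.card E ≤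
        ∑ s ∈ B, (ed s).card := by
  classical
  set M := ⨅ c : E → Fin r, {x : Fin r × ι | x.2 ∈ A x.1 ∧ ∀ e ∈ ed x.2, c e = x.1}.ncard with hM
  have h1 : ∀ e : E, T.card * M ≤ (B.filter (fun s => e ∈ ed s)).card := by
    intro e
    obtain ⟨c, hc⟩ := hc e
    let c' : Fin r → E → Fin r := fun i => Function.update c e i
    have hcol : ∀ i j : Fin r, ∀ s ∈ A j, (∀ x ∈ ed s, c' i x = j) → e ∈ ed s ∧ j = i := by
      intro i j s hs1 hs2
      have heS : e ∈ ed s := by
        by_contra heS
        apply heS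
        apply hc j s hs1
        intro x hx
        have h3 := hs2 x hx
        have h4 : x ≠ e := fun h => heS (h ▸ hx)
        simp only [c', Function.update_of_ne h4] at h3
        exact h3
      refine ⟨heS, ?_⟩
      have h3 := hs2 e heS
      simp only [c', Function.update_self] at h3
      exact h3.symm
    let D : Fin r → Finset ι := fun i => B.filter (fun s => ∀ x ∈ ed s, c' i x = i)
    have hD : ∀ i ∈ T, M ≤ (D i).card := by
      intro i hi
      refine le_trans (Nat.sInf_le ⟨c' i, rfl⟩) ?_
      have h3 : {x : Fin r × ι | x.2 ∈ A x.1 ∧ ∀ e ∈ ed x.2, c' i e = x.1} ⊆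
          (fun s : ι => (i, s)) '' (D i : Set ι) := by
        rintro ⟨j, s⟩ ⟨h4, h5⟩
        obtain ⟨h6, rfl⟩ := hcol i j s h4 h5
        refine ⟨s, ?_, rfl⟩
        simp only [D, Finset.coe_filter, Set.mem_ofPred_eq]
        refine ⟨?_, h5⟩
        have h7 : s ∈ (B : Set ι) := by rw [← hT j hi]; exact h4
        exact_mod_cast h7
      refine (Set.ncard_le_ncard h3 (Set.toFinite _)).trans ?_
      refine (Set.ncard_image_le (Set.toFinite _)).trans ?_
      rw [Set.ncard_coe_finset]
    have hA : ∀ i ∈ T, ∀ s ∈ B, s ∈ A i := by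
      intro i hi s hs
      rw [hT i hi]
      exact_mod_cast hs
    have hsub : T.biUnion D ⊆ B.filter (fun s => e ∈ ed s) := by
      intro s hs
      rw [Finset.mem_biUnion] at hs
      obtain ⟨i, hi, hs⟩ := hs
      simp only [D, Finset.mem_filter] at hs ⊢
      exact ⟨hs.1, (hcol i i s (hA i hi s hs.1) hs.2).1⟩
    have hdisj : ∀ i ∈ T, ∀ j ∈ T, i ≠ j → Disjoint (D i) (D j) := by
      intro i hi j hj hij
      rcases h2 with h2 | h2
      · exact absurd (Finset.card_le_one.1 h2 i hi j hj) hij
      rw [Finset.disjoint_left]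
      intro s h3 h4
      simp only [D, Finset.mem_filter] at h3 h4
      have h6 := h2 s h3.1
      obtain ⟨x, hx, hne⟩ : ∃ x ∈ ed s, x ≠ e := by
        by_contra hcon
        push Not at hcon
        have h7 : ed s ⊆ {e} := fun x hx => Finset.mem_singleton.2 (hcon x hx)
        have h8 := Finset.card_le_card h7
        rw [Finset.card_singleton] at h8
        omega
      have h7 := h3.2 x hx
      have h8 := h4.2 x hx
      simp only [c', Function.update_of_ne hne] at h7 h8
      exact hij (h7.symm.trans h8)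
    calc T.card * M = ∑ i ∈ T, M := by rw [Finset.sum_const, smul_eq_mul]
      _ ≤ ∑ i ∈ T, (D i).card := Finset.sum_le_sum hD
      _ = (T.biUnion D).card := (Finset.card_biUnion hdisj).symm
      _ ≤ _ := Finset.card_le_card hsub
  calc T.card * M * Fintype.card E = ∑ e : E, T.card * M := by
        rw [Finset.sum_const, smul_eq_mul, mul_comm, Finset.card_univ]
    _ ≤ ∑ e : E, (B.filter (fun s => e ∈ ed s)).card := Finset.sum_le_sum fun e _ => h1 e
    _ = ∑ e : E, ∑ s ∈ B, (if e ∈ ed s then 1 else 0) := by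
        refine Finset.sum_congr rfl fun e _ => ?_
        rw [Finset.card_filter]
    _ = ∑ s ∈ B, ∑ e : E, (if e ∈ ed s then 1 else 0) := Finset.sum_comm
    _ = ∑ s ∈ B, (ed s).card := by
        refine Finset.sum_congr rfl fun s _ => ?_
        rw [← Finset.card_filter]
        congr 1
        ext x
        simp

end Pool.Agent.H1.RB
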